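import Pool.Agent.Lib.RScal.Curv
import Pool.Agent.Lib.RScal.Flag

section

namespace Pool.Agent.Lib.RScal

open Finset Pool.Agent.Lib.MP_a150d7_gt

variable {𝔤 : Type*} [LieRing 𝔤] [LieAlgebra ℝ 𝔤]
variable {g : 𝔤 →ₗ[ℝ] 𝔤 →ₗ[ℝ] ℝ} {J : 𝔤 →ₗ[ℝ] 𝔤} {D : 𝔤 →ₗ[ℝ] 𝔤 →ₗ[ℝ] 𝔤}
variable {m : ℕ} {e : ℕ → 𝔤}

/-- the curvature as a trilinear map -/
def curvL (D : 𝔤 →ₗ[ℝ] 𝔤 →ₗ[ℝ] 𝔤) : 𝔤 →ₗ[ℝ] 𝔤 →ₗ[ℝ] 𝔤 →ₗ[ℝ] 𝔤 :=
  LinearMap.mk₂ ℝ (fun x y => D x ∘ₗ D y - D y ∘ₗ D x - D ⁅x, y⁆)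
    (by intro x x' y; ext z; simp; abel)
    (by intro c x y; ext z; simp [smul_sub])
    (by intro x y y'; ext z; simp; abel)
    (by intro c x y; ext z; simp [smul_sub])

theorem curvL_apply (x y z : 𝔤) : curvL D x y z = curv D x y z := by
  simp [curvL, curv]

/-- the quadrilinear form -/
def F4 (g : 𝔤 →ₗ[ℝ] 𝔤 →ₗ[ℝ] ℝ) (J : 𝔤 →ₗ[ℝ] 𝔤) (D : 𝔤 →ₗ[ℝ] 𝔤 →ₗ[ℝ] 𝔤) (a b c d : 𝔤) : ℝ :=
  g (curvL D a (J b) (J c)) d

/-- `scal` with respect to a frame -/
def scal (g : 𝔤 →ₗ[ℝ] 𝔤 →ₗ[ℝ] ℝ) (D : 𝔤 →ₗ[ℝ] 𝔤 →ₗ[ℝ] 𝔤) (m : ℕ) (e : ℕ → 𝔤) : ℝ :=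
  ∑ i ∈ range m, ∑ j ∈ range m, g (curvL D (e i) (e j) (e j)) (e i)

/-- the star-scalar curvature with respect to a frame -/
def sstar (g : 𝔤 →ₗ[ℝ] 𝔤 →ₗ[ℝ] ℝ) (J : 𝔤 →ₗ[ℝ] 𝔤) (D : 𝔤 →ₗ[ℝ] 𝔤 →ₗ[ℝ] 𝔤) (m : ℕ)
    (e : ℕ → 𝔤) : ℝ :=
  ∑ i ∈ range m, ∑ j ∈ range m, g (curvL D (e i) (e j) (J (e j))) (J (e i))

theorem polar (c : ℝ) (hq : ∀ x, F4 g J D x x x x = c * (g x x) ^ 2)
    (hs : ∀ x y, g x y = g y x) (x y : 𝔤) :
    F4 g J D x x y y + F4 g J D x y x y + F4 g J D x y y x + F4 g J D y x x y + F4 g J D y x y x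
      + F4 g J D y y x x = c * (2 * g x x * g y y + 4 * (g x y) ^ 2) := by
  have h1 := hq (x + y)
  have h2 := hq (x - y)
  have h3 := hq x
  have h4 := hq y
  unfold F4 at *
  simp only [map_add, map_sub, LinearMap.add_apply, LinearMap.sub_apply] at h1 h2
  rw [hs y x] at h1 h2
  linarith

theorem sum_F_ijji (hH : IsHermitianStructure g J) (hf : Frame g m e) :
    ∑ i ∈ range m, ∑ j ∈ range m, F4 g J D (e i) (e j) (e j) (e i) = scal g D m e := by
  unfold scal F4
  refine Finset.sum_congr rfl fun i _ => ?_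
  exact hf.sum_J hH.symm J hH.sq_J hH.invariant ((curvL D (e i)).compr₂ (g.flip (e i)))

theorem sum_F_ijij (hH : IsHermitianStructure g J) (hD : IsLeviCivita g D) (hf : Frame g m e) :
    ∑ i ∈ range m, ∑ j ∈ range m, F4 g J D (e i) (e j) (e i) (e j) = sstar g J D m e := by
  unfold sstar F4
  refine Finset.sum_congr rfl fun i _ => ?_
  have := hf.sum_J hH.symm J hH.sq_J hH.invariant
    ((g ∘ₗ ((curvL D (e i)).flip (J (e i)))) ∘ₗ J)
  simp only [LinearMap.coe_comp, Function.comp_apply, LinearMap.flip_apply, hH.sq_J, map_neg,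
    LinearMap.neg_apply] at this
  rw [← this]
  refine Finset.sum_congr rfl fun j _ => ?_
  rw [curvL_apply, curv_skew hH.symm hD, curvL_apply, neg_neg]

theorem sum_F_iijj (hH : IsHermitianStructure g J) (hD : IsLeviCivita g D) (hf : Frame g m e) :
    ∑ i ∈ range m, ∑ j ∈ range m, F4 g J D (e i) (e i) (e j) (e j) = 2 * sstar g J D m e := by
  have h1 : ∀ i j, F4 g J D (e i) (e i) (e j) (e j) =
      -g (curvL D (J (e i)) (J (e j)) (e i)) (e j) + F4 g J D (e i) (e j) (e i) (e j) := by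
    intro i j
    unfold F4
    have b := bianchi hD (e i) (J (e i)) (J (e j))
    rw [curvL_apply, curvL_apply, curvL_apply]
    have b2 : curv D (e i) (J (e i)) (J (e j)) =
        -curv D (J (e i)) (J (e j)) (e i) - curv D (J (e j)) (e i) (J (e i)) := by
      rw [eq_comm, ← sub_eq_zero, ← neg_eq_zero, ← b]
      abel
    rw [b2, curv_swap (J (e j)) (e i)]
    simp
  have h2 : ∑ i ∈ range m, ∑ j ∈ range m, -g (curvL D (J (e i)) (J (e j)) (e i)) (e j) =
      sstar g J D m e := by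
    rw [← sum_F_ijij hH hD hf]
    rw [Finset.sum_comm]
    rw [Finset.sum_comm (f := fun i j => F4 g J D (e i) (e j) (e i) (e j))]
    refine Finset.sum_congr rfl fun j _ => ?_
    unfold F4
    have := hf.sum_J hH.symm J hH.sq_J hH.invariant
      ((((curvL D).flip (J (e j))).compr₂ (g.flip (e j))).compl₂ J)
    simp only [LinearMap.compl₂_apply, LinearMap.compr₂_apply, LinearMap.flip_apply, hH.sq_J,
      map_neg] at this
    rw [← this]
  rw [Finset.sum_congr rfl fun i _ => Finset.sum_congr rfl fun j _ => h1 i j]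
  simp only [Finset.sum_add_distrib]
  rw [h2, sum_F_ijij hH hD hf]
  ring

theorem sum_delta (hf : Frame g m e) :
    ∑ i ∈ range m, ∑ j ∈ range m, (2 * g (e i) (e i) * g (e j) (e j) + 4 * (g (e i) (e j)) ^ 2)
      = 2 * (m : ℝ) ^ 2 + 4 * m := by
  have : ∀ i ∈ range m, ∀ j ∈ range m,
      (2 * g (e i) (e i) * g (e j) (e j) + 4 * (g (e i) (e j)) ^ 2) =
      2 + 4 * (if i = j then 1 else 0) := by
    intro i hi j hj
    rw [hf.on i hi i hi, hf.on j hj j hj, hf.on i hi j hj]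
    simp
  rw [Finset.sum_congr rfl fun i hi => Finset.sum_congr rfl fun j hj => this i hi j hj]
  simp only [Finset.sum_add_distrib, ← Finset.mul_sum]
  simp only [Finset.sum_const, Finset.card_range, nsmul_eq_mul, Finset.sum_ite_eq]
  rw [Finset.sum_congr rfl fun i (hi : i ∈ range m) => if_pos hi]
  simp
  ring

/-- `s + 3 s* = c m (m + 2)` -/
theorem scal_add (hH : IsHermitianStructure g J) (hD : IsLeviCivita g D) (hf : Frame g m e)
    (c : ℝ) (hq : ∀ x, F4 g J D x x x x = c * (g x x) ^ 2) :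
    scal g D m e + 3 * sstar g J D m e = c * (m * (m + 2)) := by
  have hA := sum_F_iijj hH hD hf
  have hB := sum_F_ijij hH hD hf
  have hC := sum_F_ijji (D := D) hH hf
  have hA' := hA
  have hB' := hB
  have hC' := hC
  rw [Finset.sum_comm] at hA' hB' hC'
  have hsum : ∑ i ∈ range m, ∑ j ∈ range m,
      (F4 g J D (e i) (e i) (e j) (e j) + F4 g J D (e i) (e j) (e i) (e j)
      + F4 g J D (e i) (e j) (e j) (e i) + F4 g J D (e j) (e i) (e i) (e j)
      + F4 g J D (e j) (e i) (e j) (e i) + F4 g J D (e j) (e j) (e i) (e i)) =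
      c * (2 * (m : ℝ) ^ 2 + 4 * m) := by
    rw [← sum_delta hf, Finset.mul_sum]
    refine Finset.sum_congr rfl fun i _ => ?_
    rw [Finset.mul_sum]
    refine Finset.sum_congr rfl fun j _ => ?_
    exact polar c hq hH.symm (e i) (e j)
  simp only [Finset.sum_add_distrib] at hsum
  linarith

end Pool.Agent.Lib.RScal
end

section

namespace Pool.Agent.Lib.RScal

open Finset Pool.Agent.Lib.MP_a150d7_gt

variable {𝔤 : Type*} [LieRing 𝔤] [LieAlgebra ℝ 𝔤]
variable {g : 𝔤 →ₗ[ℝ] 𝔤 →ₗ[ℝ] ℝ} {J : 𝔤 →ₗ[ℝ] 𝔤} {D : 𝔤 →ₗ[ℝ] 𝔤 →ₗ[ℝ] 𝔤}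
variable {m : ℕ} {e : ℕ → 𝔤}

/-- second covariant derivative of `J`, as a trilinear map: `∇²_{x,y} J z` -/
def N2 (J : 𝔤 →ₗ[ℝ] 𝔤) (D : 𝔤 →ₗ[ℝ] 𝔤 →ₗ[ℝ] 𝔤) (x y z : 𝔤) : 𝔤 :=
  D x (Kd J D y z) - Kd J D y (D x z) - Kd J D (D x y) z

theorem ricci_id (hD : IsLeviCivita g D) (x y z : 𝔤) :
    N2 J D x y z - N2 J D y x z = curvL D x y (J z) - J (curvL D x y z) := by
  unfold N2
  rw [curvL_apply, curvL_apply]
  unfold curv
  rw [← lc_sub hD x y]
  simp only [Kd_apply, map_sub, LinearMap.sub_apply]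
  abel

/-- the vector `V = Σ K_{e_i} e_i` -/
def Vv (J : 𝔤 →ₗ[ℝ] 𝔤) (D : 𝔤 →ₗ[ℝ] 𝔤 →ₗ[ℝ] 𝔤) (m : ℕ) (e : ℕ → 𝔤) : 𝔤 :=
  ∑ i ∈ range m, Kd J D (e i) (e i)

/-- the vector `H = Σ D_{e_i} e_i` -/
def Hv (D : 𝔤 →ₗ[ℝ] 𝔤 →ₗ[ℝ] 𝔤) (m : ℕ) (e : ℕ → 𝔤) : 𝔤 :=
  ∑ i ∈ range m, D (e i) (e i)

/-- `τ = Σ g(K_{e_i} e_j, K_{e_j} e_i)` -/
theorem tau_zero (hH : IsHermitianStructure g J) (hD : IsLeviCivita g D) (hf : Frame g m e) :
    ∑ i ∈ range m, ∑ j ∈ range m, g (Kd J D (e i) (e j)) (Kd J D (e j) (e i)) = 0 := by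
  have h : ∀ j, ∑ i ∈ range m, g (Kd J D (e i) (e j)) (Kd J D (e j) (e i)) = 0 := by
    intro j
    have h1 := hf.sum_J hH.symm J hH.sq_J hH.invariant
      ((g ∘ₗ ((Kd J D).flip (e j))).compl₂ (Kd J D (e j)))
    simp only [LinearMap.compl₂_apply, LinearMap.coe_comp, Function.comp_apply,
      LinearMap.flip_apply] at h1
    have h2 : ∑ i ∈ range m, g (Kd J D (J (e i)) (e j)) (Kd J D (e j) (J (e i))) =
        -∑ i ∈ range m, g (Kd J D (e i) (e j)) (Kd J D (e j) (e i)) := by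
      rw [← Finset.sum_neg_distrib]
      refine Finset.sum_congr rfl fun i _ => ?_
      rw [Kd_Jx hH hD, Kd_J hH, map_neg, hH.invariant]
    linarith
  rw [Finset.sum_comm]
  exact Finset.sum_eq_zero fun j _ => h j

theorem first_term (hH : IsHermitianStructure g J) (hD : IsLeviCivita g D) (hf : Frame g m e) :
    -∑ i ∈ range m, ∑ j ∈ range m, g (N2 J D (e i) (e j) (e j)) (J (e i)) =
      g (Vv J D m e) (Vv J D m e) + g (Vv J D m e) (J (Hv D m e)) := by
  have h1 : ∀ i, ∑ j ∈ range m, g (N2 J D (e i) (e j) (e j)) (J (e i)) =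
      g (D (e i) (Vv J D m e)) (J (e i)) := by
    intro i
    have sk := hf.sum_skew hH.symm (D (e i)) (fun x y => hD.metric (e i) x y)
      ((Kd J D).compr₂ (g.flip (J (e i))))
    simp only [LinearMap.compr₂_apply, LinearMap.flip_apply] at sk
    unfold N2 Vv
    simp only [map_sub, LinearMap.sub_apply, map_sum, LinearMap.sum_apply,
      Finset.sum_sub_distrib]
    rw [Finset.sum_add_distrib] at sk
    linarith
  rw [Finset.sum_congr rfl fun i _ => h1 i]
  have h2 : ∀ i, g (D (e i) (Vv J D m e)) (J (e i)) =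
      -(g (Vv J D m e) (Kd J D (e i) (e i)) + g (Vv J D m e) (J (D (e i) (e i)))) := by
    intro i
    have := hD.metric (e i) (Vv J D m e) (J (e i))
    have k := Kd_apply (J := J) (D := D) (e i) (e i)
    have k2 : D (e i) (J (e i)) = Kd J D (e i) (e i) + J (D (e i) (e i)) := by
      rw [k]; abel
    rw [k2, map_add] at this
    linarith
  rw [Finset.sum_congr rfl fun i _ => h2 i, Finset.sum_neg_distrib, neg_neg,
    Finset.sum_add_distrib]
  congr 1
  · rw [← map_sum]; rfl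
  · rw [← map_sum, ← map_sum]; rfl

theorem second_term (hH : IsHermitianStructure g J) (hD : IsLeviCivita g D) (hf : Frame g m e) :
    ∑ i ∈ range m, ∑ j ∈ range m, g (N2 J D (e j) (e i) (e j)) (J (e i)) =
      -g (Hv D m e) (J (Vv J D m e)) := by
  have h1 : ∀ i j, g (D (e j) (Kd J D (e i) (e j))) (J (e i)) =
      -g (Kd J D (e i) (e j)) (Kd J D (e j) (e i)) - g (Kd J D (e i) (e j)) (J (D (e j) (e i))) := by
    intro i j
    have := hD.metric (e j) (Kd J D (e i) (e j)) (J (e i))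
    have k2 : D (e j) (J (e i)) = Kd J D (e j) (e i) + J (D (e j) (e i)) := by
      rw [Kd_apply]; abel
    rw [k2, map_add] at this
    linarith
  have h2 : ∀ j, ∑ i ∈ range m, (g (Kd J D (D (e j) (e i)) (e j)) (J (e i)) +
      g (Kd J D (e i) (e j)) (J (D (e j) (e i)))) = 0 := by
    intro j
    have sk := hf.sum_skew hH.symm (D (e j)) (fun x y => hD.metric (e j) x y)
      ((g ∘ₗ ((Kd J D).flip (e j))).compl₂ J)
    simpa only [LinearMap.compl₂_apply, LinearMap.coe_comp, Function.comp_apply,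
      LinearMap.flip_apply] using sk
  have h3 : ∑ i ∈ range m, ∑ j ∈ range m, g (Kd J D (e i) (D (e j) (e j))) (J (e i)) =
      g (Hv D m e) (J (Vv J D m e)) := by
    have : ∀ i, ∑ j ∈ range m, g (Kd J D (e i) (D (e j) (e j))) (J (e i)) =
        g (Hv D m e) (J (Kd J D (e i) (e i))) := by
      intro i
      have : ∑ j ∈ range m, g (Kd J D (e i) (D (e j) (e j))) (J (e i)) =
          g (Kd J D (e i) (Hv D m e)) (J (e i)) := by
        unfold Hv
        simp only [map_sum, LinearMap.sum_apply]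
      rw [this, Kd_skew hH hD, Kd_J hH, map_neg, neg_neg]
    rw [Finset.sum_congr rfl fun i _ => this i]
    unfold Vv
    simp only [map_sum]
  have hτ := tau_zero hH hD hf
  have h4 : ∑ i ∈ range m, ∑ j ∈ range m, (g (Kd J D (D (e j) (e i)) (e j)) (J (e i)) +
      g (Kd J D (e i) (e j)) (J (D (e j) (e i)))) = 0 := by
    rw [Finset.sum_comm]
    exact Finset.sum_eq_zero fun j _ => h2 j
  unfold N2
  simp only [map_sub, LinearMap.sub_apply, Finset.sum_sub_distrib]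
  simp only [h1, Finset.sum_sub_distrib, Finset.sum_neg_distrib]
  simp only [Finset.sum_add_distrib] at h4
  linarith

theorem scal_sub (hH : IsHermitianStructure g J) (hD : IsLeviCivita g D) (hf : Frame g m e) :
    scal g D m e - sstar g J D m e =
      g (Vv J D m e) (Vv J D m e) - 2 * g (Hv D m e) (J (Vv J D m e)) := by
  have h1 := first_term hH hD hf
  have h2 := second_term hH hD hf
  have h3 : scal g D m e - sstar g J D m e =
      -∑ i ∈ range m, ∑ j ∈ range m, g (N2 J D (e i) (e j) (e j)) (J (e i)) +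
      ∑ i ∈ range m, ∑ j ∈ range m, g (N2 J D (e j) (e i) (e j)) (J (e i)) := by
    unfold scal sstar
    rw [← Finset.sum_sub_distrib, ← Finset.sum_neg_distrib, ← Finset.sum_add_distrib]
    refine Finset.sum_congr rfl fun i _ => ?_
    rw [← Finset.sum_sub_distrib, ← Finset.sum_neg_distrib, ← Finset.sum_add_distrib]
    refine Finset.sum_congr rfl fun j _ => ?_
    have r := ricci_id (J := J) hD (e i) (e j) (e j)
    have r2 := congrArg (fun v => g v (J (e i))) r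
    simp only [map_sub, LinearMap.sub_apply] at r2
    rw [hH.invariant] at r2
    linarith
  rw [h3, h1, h2, hH.symm (Hv D m e) (J (Vv J D m e)), J_skew hH (Vv J D m e) (Hv D m e)]
  ring

theorem scal_sub_ge (hH : IsHermitianStructure g J) (hD : IsLeviCivita g D) (hf : Frame g m e) :
    -g (Hv D m e) (Hv D m e) ≤ scal g D m e - sstar g J D m e := by
  rw [scal_sub hH hD hf]
  have hpos : 0 ≤ g (J (Vv J D m e) - Hv D m e) (J (Vv J D m e) - Hv D m e) := by
    by_cases h : J (Vv J D m e) - Hv D m e = 0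
    · rw [h]; simp
    · exact le_of_lt (hH.pos _ h)
  simp only [map_sub, LinearMap.sub_apply] at hpos
  rw [hH.invariant, hH.symm (Hv D m e) (J (Vv J D m e))] at hpos
  rw [hH.symm (Hv D m e) (J (Vv J D m e))]
  linarith

end Pool.Agent.Lib.RScal
end

section

namespace Pool.Agent.Lib.RScal

open Finset Pool.Agent.Lib.MP_a150d7_gt

/-! ### sums over three indices -/

/-- triple sum -/
def S3 (m : ℕ) (f : ℕ → ℕ → ℕ → ℝ) : ℝ :=
  ∑ i ∈ range m, ∑ j ∈ range m, ∑ k ∈ range m, f i j k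

theorem S3_congr (m : ℕ) {f f' : ℕ → ℕ → ℕ → ℝ} (h : ∀ i j k, f i j k = f' i j k) :
    S3 m f = S3 m f' := by
  unfold S3
  simp only [h]

theorem S3_add (m : ℕ) (f f' : ℕ → ℕ → ℕ → ℝ) :
    S3 m (fun i j k => f i j k + f' i j k) = S3 m f + S3 m f' := by
  unfold S3
  simp only [Finset.sum_add_distrib]

theorem S3_sub (m : ℕ) (f f' : ℕ → ℕ → ℕ → ℝ) :
    S3 m (fun i j k => f i j k - f' i j k) = S3 m f - S3 m f' := by
  unfold S3
  simp only [Finset.sum_sub_distrib]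

theorem S3_mul (m : ℕ) (a : ℝ) (f : ℕ → ℕ → ℕ → ℝ) :
    S3 m (fun i j k => a * f i j k) = a * S3 m f := by
  unfold S3
  simp only [Finset.mul_sum]

theorem S3_neg (m : ℕ) (f : ℕ → ℕ → ℕ → ℝ) :
    S3 m (fun i j k => - f i j k) = - S3 m f := by
  unfold S3
  simp only [Finset.sum_neg_distrib]

theorem S3_swap12 (m : ℕ) (f : ℕ → ℕ → ℕ → ℝ) : S3 m (fun i j k => f j i k) = S3 m f := by
  unfold S3
  rw [Finset.sum_comm]

theorem S3_swap23 (m : ℕ) (f : ℕ → ℕ → ℕ → ℝ) : S3 m (fun i j k => f i k j) = S3 m f := by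
  unfold S3
  refine Finset.sum_congr rfl fun i _ => ?_
  rw [Finset.sum_comm]

theorem S3_rot (m : ℕ) (f : ℕ → ℕ → ℕ → ℝ) : S3 m (fun i j k => f j k i) = S3 m f := by
  have h3 := S3_swap12 m (fun i j k => f i k j)
  have h4 := S3_swap23 m f
  rw [← h4, ← h3]

theorem S3_rot' (m : ℕ) (f : ℕ → ℕ → ℕ → ℝ) : S3 m (fun i j k => f k i j) = S3 m f := by
  have h := S3_rot m (fun i j k => f k i j)
  rw [← h]

/-! ### the combinatorial core -/

/-- `N1 = Σ c_ijk²` -/
def N1 (m : ℕ) (c : ℕ → ℕ → ℕ → ℝ) : ℝ := S3 m fun i j k => c i j k ^ 2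

/-- `N2 = Σ c_ijk c_ikj` -/
def N2c (m : ℕ) (c : ℕ → ℕ → ℕ → ℝ) : ℝ := S3 m fun i j k => c i j k * c i k j

theorem sum_P (m : ℕ) (c : ℕ → ℕ → ℕ → ℝ) (ha : ∀ i j k, c i j k = - c j i k) :
    S3 m (fun i j k => (c i j k - c j k i + c k i j) * (c j i k - c i k j + c k j i)) =
      N1 m c + 2 * N2c m c := by
  have h1 : ∀ i j k, (c i j k - c j k i + c k i j) * (c j i k - c i k j + c k j i) =
      c k i j ^ 2 + c j k i ^ 2 - c i j k ^ 2 + 2 * (c k i j * c k j i) := by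
    intro i j k
    rw [ha j i k, ha i k j, ha j k i]
    ring
  rw [S3_congr m h1, S3_add, S3_sub, S3_add, S3_mul]
  have r1 : S3 m (fun i j k => c k i j ^ 2) = N1 m c := S3_rot' m fun i j k => c i j k ^ 2
  have r2 : S3 m (fun i j k => c j k i ^ 2) = N1 m c := S3_rot m fun i j k => c i j k ^ 2
  have r3 : S3 m (fun i j k => c k i j * c k j i) = N2c m c :=
    S3_rot' m fun i j k => c i j k * c i k j
  rw [r1, r2, r3]
  unfold N1
  ring

theorem sum_Q (m : ℕ) (c : ℕ → ℕ → ℕ → ℝ) (ha : ∀ i j k, c i j k = - c j i k) :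
    S3 m (fun i j k => c i j k * (c k j i - c j i k + c i k j)) =
      N1 m c + 2 * N2c m c := by
  have h1 : ∀ i j k, c i j k * (c k j i - c j i k + c i k j) =
      c j i k * c j k i + c i j k ^ 2 + c i j k * c i k j := by
    intro i j k
    rw [ha k j i, ha j i k]
    ring
  rw [S3_congr m h1, S3_add, S3_add]
  have r1 : S3 m (fun i j k => c j i k * c j k i) = N2c m c :=
    S3_swap12 m fun i j k => c i j k * c i k j
  rw [r1]
  unfold N1 N2c
  ring

/-- the contribution of the index `K` -/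
noncomputable def blk (c : ℕ → ℕ → ℕ → ℝ) (K : ℕ) : ℝ :=
  (1 / 4) * ∑ i ∈ range K, ∑ j ∈ range K, (c K i j + c K j i) ^ 2 + ∑ i ∈ range K, c K i K ^ 2

theorem blk_nonneg (c : ℕ → ℕ → ℕ → ℝ) (K : ℕ) : 0 ≤ blk c K := by
  unfold blk
  have h1 : 0 ≤ ∑ i ∈ range K, ∑ j ∈ range K, (c K i j + c K j i) ^ 2 :=
    Finset.sum_nonneg fun i _ => Finset.sum_nonneg fun j _ => sq_nonneg _
  have h2 : 0 ≤ ∑ i ∈ range K, c K i K ^ 2 := Finset.sum_nonneg fun i _ => sq_nonneg _
  linarith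

theorem S3_succ (m : ℕ) (f : ℕ → ℕ → ℕ → ℝ) :
    S3 (m + 1) f = S3 m f + ∑ i ∈ range m, ∑ j ∈ range m, f i j m
      + ∑ i ∈ range m, ∑ k ∈ range m, f i m k + ∑ j ∈ range m, ∑ k ∈ range m, f m j k
      + ∑ i ∈ range m, f i m m + ∑ j ∈ range m, f m j m + ∑ k ∈ range m, f m m k + f m m m := by
  unfold S3
  simp only [Finset.sum_range_succ, Finset.sum_add_distrib]
  ring

theorem N_flag (c : ℕ → ℕ → ℕ → ℝ) (ha : ∀ i j k, c i j k = - c j i k) (M : ℕ)
    (hfl : ∀ i j k, i < k → j < k → k < M → c i j k = 0) (m : ℕ) (hm : m ≤ M) :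
    (1 / 4) * N1 m c + (1 / 2) * N2c m c = ∑ K ∈ range m, blk c K := by
  induction m with
  | zero => simp [N1, N2c, S3]
  | succ m ih =>
    have ih' := ih (by omega)
    rw [Finset.sum_range_succ, ← ih']
    have hmm : ∀ k, c m m k = 0 := fun k => by have := ha m m k; linarith
    unfold N1 N2c
    rw [S3_succ, S3_succ]
    have z1 : ∑ i ∈ range m, ∑ j ∈ range m, c i j m ^ 2 = 0 :=
      Finset.sum_eq_zero fun i hi => Finset.sum_eq_zero fun j hj => by
        rw [hfl i j m (Finset.mem_range.mp hi) (Finset.mem_range.mp hj) (by omega)]; ring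
    have z2 : ∑ i ∈ range m, ∑ j ∈ range m, c i j m * c i m j = 0 :=
      Finset.sum_eq_zero fun i hi => Finset.sum_eq_zero fun j hj => by
        rw [hfl i j m (Finset.mem_range.mp hi) (Finset.mem_range.mp hj) (by omega)]; ring
    have z3 : ∑ i ∈ range m, ∑ k ∈ range m, c i m k * c i k m = 0 :=
      Finset.sum_eq_zero fun i hi => Finset.sum_eq_zero fun k hk => by
        rw [hfl i k m (Finset.mem_range.mp hi) (Finset.mem_range.mp hk) (by omega)]; ring
    have s1 : ∑ i ∈ range m, ∑ k ∈ range m, c i m k ^ 2 =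
        ∑ i ∈ range m, ∑ j ∈ range m, c m i j ^ 2 :=
      Finset.sum_congr rfl fun i _ => Finset.sum_congr rfl fun j _ => by
        rw [ha i m j]; ring
    have s2 : ∑ i ∈ range m, c i m m ^ 2 = ∑ i ∈ range m, c m i m ^ 2 :=
      Finset.sum_congr rfl fun i _ => by rw [ha i m m]; ring
    have s3 : ∑ i ∈ range m, c i m m * c i m m = ∑ i ∈ range m, c m i m ^ 2 :=
      Finset.sum_congr rfl fun i _ => by rw [ha i m m]; ring
    have s4 : ∑ i ∈ range m, ∑ j ∈ range m, (c m i j + c m j i) ^ 2 =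
        2 * ∑ i ∈ range m, ∑ j ∈ range m, c m i j ^ 2 +
        2 * ∑ i ∈ range m, ∑ j ∈ range m, c m i j * c m j i := by
      have e1 : ∀ i j, (c m i j + c m j i) ^ 2 =
          c m i j ^ 2 + c m j i ^ 2 + 2 * (c m i j * c m j i) := fun i j => by ring
      simp only [e1, Finset.sum_add_distrib, ← Finset.mul_sum]
      have e2 : ∑ i ∈ range m, ∑ j ∈ range m, c m j i ^ 2 =
          ∑ i ∈ range m, ∑ j ∈ range m, c m i j ^ 2 := Finset.sum_comm
      rw [e2]
      ring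
    have z4 : ∑ j ∈ range m, c m j m * c m m j = 0 :=
      Finset.sum_eq_zero fun j _ => by rw [hmm]; ring
    have z5 : ∑ k ∈ range m, c m m k ^ 2 = 0 :=
      Finset.sum_eq_zero fun j _ => by rw [hmm]; ring
    have z6 : ∑ k ∈ range m, c m m k * c m k m = 0 :=
      Finset.sum_eq_zero fun j _ => by rw [hmm]; ring
    unfold blk
    rw [z1, z2, z3, s1, s2, s3, s4, z4, z5, z6, hmm]
    ring

/-! ### the scalar curvature -/

variable {𝔤 : Type*} [LieRing 𝔤] [LieAlgebra ℝ 𝔤]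
variable {g : 𝔤 →ₗ[ℝ] 𝔤 →ₗ[ℝ] ℝ} {J : 𝔤 →ₗ[ℝ] 𝔤} {D : 𝔤 →ₗ[ℝ] 𝔤 →ₗ[ℝ] 𝔤}
variable {m : ℕ} {e : ℕ → 𝔤}

/-- structure constants in the frame -/
def sc (g : 𝔤 →ₗ[ℝ] 𝔤 →ₗ[ℝ] ℝ) (e : ℕ → 𝔤) (i j k : ℕ) : ℝ := g ⁅e i, e j⁆ (e k)

theorem sc_anti (i j k : ℕ) : sc g e i j k = - sc g e j i k := by
  unfold sc
  rw [← lie_skew (e i) (e j)]
  simp only [map_neg, LinearMap.neg_apply]

theorem scal_formula (hs : ∀ x y, g x y = g y x) (hD : IsLeviCivita g D) (hf : Frame g m e) :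
    scal g D m e = -((1 / 4) * N1 m (sc g e) + (1 / 2) * N2c m (sc g e))
      - g (Hv D m e) (Hv D m e) := by
  -- first piece
  have p1 : ∑ i ∈ range m, ∑ j ∈ range m, g (D (e i) (D (e j) (e j))) (e i) =
      -g (Hv D m e) (Hv D m e) := by
    have : ∀ i, ∑ j ∈ range m, g (D (e i) (D (e j) (e j))) (e i) =
        -g (Hv D m e) (D (e i) (e i)) := by
      intro i
      have h1 : ∑ j ∈ range m, g (D (e i) (D (e j) (e j))) (e i) = g (D (e i) (Hv D m e)) (e i) := by
        unfold Hv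
        simp only [map_sum, LinearMap.sum_apply]
      rw [h1]
      have := hD.metric (e i) (Hv D m e) (e i)
      linarith
    rw [Finset.sum_congr rfl fun i _ => this i, Finset.sum_neg_distrib]
    congr 1
    rw [← map_sum]
    rfl
  -- second piece
  have kz : ∀ i j k, 2 * g (D (e i) (e j)) (e k) = sc g e i j k - sc g e j k i + sc g e k i j :=
    fun i j k => koszul hs hD (e i) (e j) (e k)
  have p2 : ∑ i ∈ range m, ∑ j ∈ range m, g (D (e j) (D (e i) (e j))) (e i) =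
      -(1 / 4) * (N1 m (sc g e) + 2 * N2c m (sc g e)) := by
    rw [← sum_P m (sc g e) sc_anti]
    unfold S3
    rw [Finset.mul_sum]
    refine Finset.sum_congr rfl fun i _ => ?_
    rw [Finset.mul_sum]
    refine Finset.sum_congr rfl fun j _ => ?_
    have h1 := hD.metric (e j) (D (e i) (e j)) (e i)
    have h2 := hf.parseval hs (D (e i) (e j)) (D (e j) (e i))
    have h3 : g (D (e i) (e j)) (D (e j) (e i)) = (1 / 4) * ∑ k ∈ range m,
        (sc g e i j k - sc g e j k i + sc g e k i j) *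
          (sc g e j i k - sc g e i k j + sc g e k j i) := by
      rw [h2, Finset.mul_sum]
      refine Finset.sum_congr rfl fun k _ => ?_
      rw [← kz i j k, ← kz j i k]
      ring
    linarith
  -- third piece
  have p3 : ∑ i ∈ range m, ∑ j ∈ range m, g (D ⁅e i, e j⁆ (e j)) (e i) =
      (1 / 2) * (N1 m (sc g e) + 2 * N2c m (sc g e)) := by
    rw [← sum_Q m (sc g e) sc_anti]
    unfold S3
    rw [Finset.mul_sum]
    refine Finset.sum_congr rfl fun i _ => ?_
    rw [Finset.mul_sum]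
    refine Finset.sum_congr rfl fun j _ => ?_
    have h1 := hf.lin ((g.flip (e i)) ∘ₗ (D.flip (e j))) ⁅e i, e j⁆
    simp only [LinearMap.coe_comp, Function.comp_apply, LinearMap.flip_apply] at h1
    rw [h1, Finset.mul_sum]
    refine Finset.sum_congr rfl fun k _ => ?_
    have := kz k j i
    have h4 : g (D (e k) (e j)) (e i) = (1 / 2) * (sc g e k j i - sc g e j i k + sc g e i k j) := by
      linarith
    rw [h4]
    unfold sc
    ring
  unfold scal
  simp only [curvL_apply, curv, map_sub, LinearMap.sub_apply, Finset.sum_sub_distrib]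
  rw [p1, p2, p3]
  ring

/-- the main inequality: on a frame adapted to a flag of subalgebras,
`c m (m+2) ≤ -4 Σ blk - |H|²` -/
theorem main_ineq (hH : IsHermitianStructure g J) (hD : IsLeviCivita g D) (hf : Frame g m e)
    (hfl : ∀ i j k, i < k → j < k → k < m → g ⁅e i, e j⁆ (e k) = 0)
    (c : ℝ) (hq : ∀ x, F4 g J D x x x x = c * (g x x) ^ 2) :
    c * (m * (m + 2)) ≤ -4 * ∑ K ∈ range m, blk (sc g e) K - g (Hv D m e) (Hv D m e) := by
  have h1 := scal_add hH hD hf c hq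
  have h2 := scal_sub_ge hH hD hf
  have h3 := scal_formula hH.symm hD hf
  have h4 := N_flag (sc g e) sc_anti m hfl m le_rfl
  rw [h4] at h3
  linarith

end Pool.Agent.Lib.RScal
end

section

set_option linter.unusedSectionVars false

namespace Pool.Agent.Lib.RScal

open Finset Pool.Agent.Lib.MP_a150d7_gt

variable {𝔤 : Type*} [LieRing 𝔤] [LieAlgebra ℝ 𝔤]
variable {g : 𝔤 →ₗ[ℝ] 𝔤 →ₗ[ℝ] ℝ} {J : 𝔤 →ₗ[ℝ] 𝔤} {D : 𝔤 →ₗ[ℝ] 𝔤 →ₗ[ℝ] 𝔤}
variable {m : ℕ} {e : ℕ → 𝔤}

theorem Frame.ext_frame (hf : Frame g m e) {x y : 𝔤} (h : ∀ k, k < m → g x (e k) = g y (e k)) :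
    x = y := by
  rw [hf.expand x, hf.expand y]
  refine Finset.sum_congr rfl fun k hk => ?_
  rw [h k (Finset.mem_range.mp hk)]

/-- `x` is in the span of the `e k` with `k < a` -/
def InW (g : 𝔤 →ₗ[ℝ] 𝔤 →ₗ[ℝ] ℝ) (m : ℕ) (e : ℕ → 𝔤) (a : ℕ) (x : 𝔤) : Prop :=
  ∀ k, k < m → a ≤ k → g x (e k) = 0

theorem blk_zero {c : ℕ → ℕ → ℕ → ℝ} (h : ∑ K ∈ range m, blk c K ≤ 0) :
    ∀ K, K < m → (∀ i j, i < K → j < K → c K i j + c K j i = 0) ∧ ∀ i, i < K → c K i K = 0 := by
  have h0 : ∑ K ∈ range m, blk c K = 0 :=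
    le_antisymm h (Finset.sum_nonneg fun K _ => blk_nonneg c K)
  intro K hK
  have h1 := (Finset.sum_eq_zero_iff_of_nonneg fun K _ => blk_nonneg c K).mp h0 K
    (Finset.mem_range.mpr hK)
  unfold blk at h1
  have a1 : 0 ≤ ∑ i ∈ range K, ∑ j ∈ range K, (c K i j + c K j i) ^ 2 :=
    Finset.sum_nonneg fun i _ => Finset.sum_nonneg fun j _ => sq_nonneg _
  have a2 : 0 ≤ ∑ i ∈ range K, c K i K ^ 2 := Finset.sum_nonneg fun i _ => sq_nonneg _
  have b1 : ∑ i ∈ range K, ∑ j ∈ range K, (c K i j + c K j i) ^ 2 = 0 := by linarith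
  have b2 : ∑ i ∈ range K, c K i K ^ 2 = 0 := by linarith
  constructor
  · intro i j hi hj
    have c1 := (Finset.sum_eq_zero_iff_of_nonneg fun i _ =>
      Finset.sum_nonneg fun j _ => sq_nonneg _).mp b1 i (Finset.mem_range.mpr hi)
    have c2 := (Finset.sum_eq_zero_iff_of_nonneg fun j _ => sq_nonneg _).mp c1 j
      (Finset.mem_range.mpr hj)
    exact pow_eq_zero_iff (two_ne_zero) |>.mp c2
  · intro i hi
    have c1 := (Finset.sum_eq_zero_iff_of_nonneg fun i _ => sq_nonneg _).mp b2 i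
      (Finset.mem_range.mpr hi)
    exact pow_eq_zero_iff (two_ne_zero) |>.mp c1

section

variable (hs : ∀ x y, g x y = g y x) (hD : IsLeviCivita g D) (hf : Frame g m e)
  (hfl : ∀ i j k, i < k → j < k → k < m → g ⁅e i, e j⁆ (e k) = 0)
  (hK : ∀ K, K < m → (∀ i j, i < K → j < K → sc g e K i j + sc g e K j i = 0) ∧
    ∀ i, i < K → sc g e K i K = 0)
include hs hD hf hfl hK

theorem D_frame_lt (a b : ℕ) (ha : a < m) (hba : b < a) : D (e a) (e b) = ⁅e a, e b⁆ := by
  refine hf.ext_frame fun k hk => ?_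
  have kz : 2 * g (D (e a) (e b)) (e k) = sc g e a b k - sc g e b k a + sc g e k a b :=
    koszul hs hD (e a) (e b) (e k)
  have goal : 2 * g (D (e a) (e b)) (e k) = 2 * sc g e a b k := by
    rw [kz]
    rcases lt_trichotomy k a with h | h | h
    · have h1 : sc g e b k a = 0 := hfl b k a hba h ha
      have h2 := (hK a ha).1 b k hba h
      have h3 : sc g e k a b = - sc g e a k b := sc_anti k a b
      linarith
    · subst h
      have h2 := (hK k ha).2 b hba
      have h3 : sc g e b k k = - sc g e k b k := sc_anti b k k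
      have h4 : sc g e k k b = - sc g e k k b := sc_anti k k b
      linarith
    · have h1 : sc g e a b k = 0 := hfl a b k h (hba.trans h) hk
      have h2 := (hK k hk).1 a b h (hba.trans h)
      have h3 : sc g e b k a = - sc g e k b a := sc_anti b k a
      linarith
  unfold sc at goal
  linarith

theorem D_frame_ge (a b : ℕ) (ha : a < m) (hb : b < m) (hab : a ≤ b) : D (e a) (e b) = 0 := by
  rcases Nat.eq_or_lt_of_le hab with h | h
  · subst h
    refine hf.ext_frame fun k hk => ?_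
    have kz : 2 * g (D (e a) (e a)) (e k) = sc g e a a k - sc g e a k a + sc g e k a a :=
      koszul hs hD (e a) (e a) (e k)
    have s1 : sc g e a a k = - sc g e a a k := sc_anti a a k
    have s2 : sc g e a k a = - sc g e k a a := sc_anti a k a
    have goal : sc g e k a a = 0 := by
      rcases lt_trichotomy k a with h | h | h
      · have := (hK a ha).2 k h
        linarith
      · subst h; linarith
      · have := (hK k hk).1 a a h h
        linarith
    simp only [map_zero, LinearMap.zero_apply]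
    linarith
  · have h1 := lc_sub hD (e a) (e b)
    rw [D_frame_lt hs hD hf hfl hK b a hb h, ← lie_skew (e a) (e b)] at h1
    have : D (e a) (e b) = -⁅e b, e a⁆ + ⁅e b, e a⁆ := by rw [← h1]; abel
    rw [this]
    abel

theorem DW (a : ℕ) (ha : a < m) (x : 𝔤) (hx : InW g m e a x) : D (e a) x = ⁅e a, x⁆ := by
  rw [hf.expand x]
  simp only [map_sum, map_smul, lie_sum, lie_smul]
  refine Finset.sum_congr rfl fun k hk => ?_
  by_cases h : k < a
  · rw [D_frame_lt hs hD hf hfl hK a k ha h]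
  · rw [hx k (Finset.mem_range.mp hk) (not_lt.mp h)]
    simp

theorem Dperp (a k : ℕ) (hk : k < m) (hak : a ≤ k) (x : 𝔤) (hx : InW g m e a x) :
    D x (e k) = 0 := by
  rw [hf.expand x]
  simp only [map_sum, map_smul, LinearMap.sum_apply, LinearMap.smul_apply]
  refine Finset.sum_eq_zero fun l hl => ?_
  by_cases h : l < a
  · rw [D_frame_ge hs hD hf hfl hK l k (Finset.mem_range.mp hl) hk (h.le.trans hak), smul_zero]
  · rw [hx l (Finset.mem_range.mp hl) (not_lt.mp h), zero_smul]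

theorem DinW (a : ℕ) (ha : a < m) (x : 𝔤) : InW g m e a (D (e a) x) := by
  intro k hk hak
  have := hD.metric (e a) x (e k)
  rw [D_frame_ge hs hD hf hfl hK a k ha hk hak, map_zero] at this
  linarith

theorem DWW (a : ℕ) (x y : 𝔤) (hx : InW g m e a x) : InW g m e a (D x y) := by
  intro k hk hak
  have := hD.metric x y (e k)
  rw [Dperp hs hD hf hfl hK a k hk hak x hx, map_zero] at this
  linarith

theorem brW (a : ℕ) (ha : a < m) (x : 𝔤) (hx : InW g m e a x) : InW g m e a ⁅e a, x⁆ := by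
  rw [← DW hs hD hf hfl hK a ha x hx]
  exact DinW hs hD hf hfl hK a ha x

theorem WWl (a : ℕ) (x y : 𝔤) (hx : InW g m e a x) (hy : InW g m e a y) :
    InW g m e a ⁅x, y⁆ := by
  rw [← lc_sub hD]
  intro k hk hak
  rw [map_sub, LinearMap.sub_apply, DWW hs hD hf hfl hK a x y hx k hk hak,
    DWW hs hD hf hfl hK a y x hy k hk hak, sub_zero]

theorem skW (a : ℕ) (ha : a < m) (x y : 𝔤) (hx : InW g m e a x) (hy : InW g m e a y) :
    g ⁅e a, x⁆ y = -g x ⁅e a, y⁆ := by
  have := hD.metric (e a) x y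
  rw [DW hs hD hf hfl hK a ha x hx, DW hs hD hf hfl hK a ha y hy] at this
  linarith

theorem derivW (hp : ∀ x, x ≠ 0 → 0 < g x x) (a : ℕ) (ha : a < m) (x y : 𝔤)
    (hx : InW g m e a x) (hy : InW g m e a y) :
    ⁅e a, D x y⁆ = D ⁅e a, x⁆ y + D x ⁅e a, y⁆ := by
  set Δ := ⁅e a, D x y⁆ - D ⁅e a, x⁆ y - D x ⁅e a, y⁆ with hΔ
  have bx := brW hs hD hf hfl hK a ha x hx
  have hby := brW hs hD hf hfl hK a ha y hy
  have hDxy := DWW hs hD hf hfl hK a x y hx
  have hΔW : InW g m e a Δ := by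
    intro k hk hak
    rw [hΔ, map_sub, map_sub, LinearMap.sub_apply, LinearMap.sub_apply,
      brW hs hD hf hfl hK a ha _ hDxy k hk hak, DWW hs hD hf hfl hK a _ y bx k hk hak,
      DWW hs hD hf hfl hK a x _ hx k hk hak]
    ring
  have key : ∀ z, InW g m e a z → g Δ z = 0 := by
    intro z hz
    have s0 := skW hs hD hf hfl hK a ha (D x y) z hDxy hz
    have k1 := koszul hs hD x y ⁅e a, z⁆
    have k2 := koszul hs hD ⁅e a, x⁆ y z
    have k3 := koszul hs hD x ⁅e a, y⁆ z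
    have sxy := skW hs hD hf hfl hK a ha ⁅x, y⁆ z (WWl hs hD hf hfl hK a x y hx hy) hz
    have syz := skW hs hD hf hfl hK a ha ⁅y, z⁆ x (WWl hs hD hf hfl hK a y z hy hz) hx
    have szx := skW hs hD hf hfl hK a ha ⁅z, x⁆ y (WWl hs hD hf hfl hK a z x hz hx) hy
    rw [leibniz_lie, map_add, LinearMap.add_apply] at sxy syz szx
    rw [hΔ]
    simp only [map_sub, LinearMap.sub_apply]
    linarith
  have h0 := key Δ hΔW
  by_contra hne
  have hne' : Δ ≠ 0 := by
    intro h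
    apply hne
    rw [hΔ] at h
    rw [← sub_eq_zero, ← h]
    abel
  exact absurd h0 (ne_of_gt (hp _ hne'))

theorem inW_frame (a k : ℕ) (hka : k < a) (hk : k < m) : InW g m e a (e k) := by
  intro l hl hal
  rw [hf.on k (Finset.mem_range.mpr hk) l (Finset.mem_range.mpr hl), if_neg (by omega)]

theorem curv_frame (hp : ∀ x, x ≠ 0 → 0 < g x x) (a b k : ℕ) (ha : a < m) (hba : b < a)
    (hk : k < m) : curvL D (e a) (e b) (e k) = 0 := by
  rw [curvL_apply]
  unfold curv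
  have hb : InW g m e a (e b) := inW_frame hs hD hf hfl hK a b hba (hba.trans ha)
  by_cases h : k < a
  · have hk' : InW g m e a (e k) := inW_frame hs hD hf hfl hK a k h hk
    rw [DW hs hD hf hfl hK a ha _ (DWW hs hD hf hfl hK a (e b) (e k) hb),
      DW hs hD hf hfl hK a ha _ hk', derivW hs hD hf hfl hK hp a ha _ _ hb hk']
    abel
  · have hak := not_lt.mp h
    rw [D_frame_ge hs hD hf hfl hK b k (hba.trans ha) hk (hba.le.trans hak),
      D_frame_ge hs hD hf hfl hK a k ha hk hak,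
      Dperp hs hD hf hfl hK a k hk hak _ (brW hs hD hf hfl hK a ha _ hb)]
    simp

theorem curv_zero (hp : ∀ x, x ≠ 0 → 0 < g x x) (x y z : 𝔤) : curv D x y z = 0 := by
  have h1 : ∀ a b k, a < m → b < m → k < m → curvL D (e a) (e b) (e k) = 0 := by
    intro a b k ha hb hk
    rcases lt_trichotomy b a with h | h | h
    · exact curv_frame hs hD hf hfl hK hp a b k ha h hk
    · subst h
      rw [curvL_apply, curv_self]
    · have := curv_frame hs hD hf hfl hK hp b a k hb h hk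
      rw [curvL_apply] at this ⊢
      rw [curv_swap, this, neg_zero]
  rw [← curvL_apply, hf.expand x, hf.expand y, hf.expand z]
  simp only [map_sum, map_smul, LinearMap.sum_apply, LinearMap.smul_apply]
  refine Finset.sum_eq_zero fun k hk => ?_
  rw [Finset.sum_eq_zero, smul_zero]
  intro j hj
  rw [Finset.sum_eq_zero, smul_zero]
  intro i hi
  rw [h1 _ _ _ (Finset.mem_range.mp ‹_›) (Finset.mem_range.mp ‹_›) (Finset.mem_range.mp ‹_›),
    smul_zero]

end

end Pool.Agent.Lib.RScal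
end

section

namespace Pool.Agent.Lib.RScal

open Module

variable {𝔤 : Type*} [LieRing 𝔤] [LieAlgebra ℝ 𝔤] [FiniteDimensional ℝ 𝔤]

/-- a nonzero solvable subalgebra contains a subalgebra of codimension one -/
theorem exists_codim_one [LieAlgebra.IsSolvable 𝔤] (H : LieSubalgebra ℝ 𝔤) (hH : H ≠ ⊥) :
    ∃ U : LieSubalgebra ℝ 𝔤, U ≤ H ∧ finrank ℝ H ≤ finrank ℝ U + 1 ∧
      finrank ℝ U < finrank ℝ H := by
  have hsolv : LieAlgebra.IsSolvable H :=
    Function.Injective.lieAlgebra_isSolvable (f := H.incl) Subtype.val_injective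
  have hnt : Nontrivial H := by
    by_contra h
    rw [not_nontrivial_iff_subsingleton] at h
    apply hH
    rw [eq_bot_iff]
    intro x hx
    have : (⟨x, hx⟩ : H) = 0 := Subsingleton.elim _ _
    simpa using congrArg Subtype.val this
  have hlt := LieAlgebra.derivedSeries_lt_top_of_solvable ℝ H
  have hlt' : (LieAlgebra.derivedSeries ℝ H 1).toSubmodule < ⊤ := by
    rw [lt_top_iff_ne_top] at hlt ⊢
    intro h
    apply hlt
    exact (LieSubmodule.toSubmodule_eq_top _).mp h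
  obtain ⟨f, hf0, hf⟩ := Submodule.exists_le_ker_of_lt_top _ hlt'
  have hbr : ∀ x y : H, f ⁅x, y⁆ = 0 := by
    intro x y
    apply hf
    change ⁅x, y⁆ ∈ LieAlgebra.derivedSeries ℝ H 1
    rw [LieAlgebra.derivedSeries_def, LieAlgebra.derivedSeriesOfIdeal_succ,
      LieAlgebra.derivedSeriesOfIdeal_zero]
    exact LieSubmodule.lie_mem_lie (LieSubmodule.mem_top x) (LieSubmodule.mem_top y)
  let U : LieSubalgebra ℝ 𝔤 :=
    { (LinearMap.ker f).map H.toSubmodule.subtype with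
      lie_mem' := by
        rintro _ _ ⟨x, hx, rfl⟩ ⟨y, hy, rfl⟩
        exact ⟨(⁅(show H from x), (show H from y)⁆ : H), hbr _ _, rfl⟩ }
  have hUs : U.toSubmodule = (LinearMap.ker f).map H.toSubmodule.subtype := rfl
  have hUr : finrank ℝ U = finrank ℝ (LinearMap.ker f) := by
    change finrank ℝ U.toSubmodule = _
    rw [hUs]
    exact Submodule.finrank_map_subtype_eq _ _
  have hle : U ≤ H := by
    rintro _ ⟨x, _, rfl⟩
    exact x.2
  refine ⟨U, hle, ?_, ?_⟩
  · have h1 := LinearMap.finrank_range_add_finrank_ker f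
    have h2 : finrank ℝ (LinearMap.range f) ≤ 1 := by
      have := Submodule.finrank_le (LinearMap.range f)
      simpa using this
    rw [hUr]
    omega
  · rw [hUr]
    refine Submodule.finrank_lt ?_
    intro h
    apply hf0
    exact LinearMap.ker_eq_top.mp h

theorem flag_of_solvable_aux [LieAlgebra.IsSolvable 𝔤] (n : ℕ) :
    ∀ H : LieSubalgebra ℝ 𝔤, finrank ℝ H ≤ n → ∃ F : ℕ → LieSubalgebra ℝ 𝔤, F 0 = ⊥ ∧
      (∀ k, F k ≤ F (k + 1)) ∧ (∀ k, finrank ℝ (F (k + 1)) ≤ finrank ℝ (F k) + 1) ∧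
      ∃ N, ∀ k, N ≤ k → F k = H := by
  induction n with
  | zero =>
    intro H hH
    have h0 : H = ⊥ := by
      have : finrank ℝ H.toSubmodule = 0 := Nat.le_zero.mp hH
      rw [Submodule.finrank_eq_zero] at this
      exact LieSubalgebra.toSubmodule_injective (by rw [this]; rfl)
    subst h0
    exact ⟨fun _ => ⊥, rfl, fun _ => le_rfl, fun _ => Nat.le_succ _, 0, fun _ _ => rfl⟩
  | succ n ih =>
    intro H hH
    by_cases hb : H = ⊥
    · subst hb
      exact ⟨fun _ => ⊥, rfl, fun _ => le_rfl, fun _ => Nat.le_succ _, 0, fun _ _ => rfl⟩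
    obtain ⟨U, hUH, h1, h2⟩ := exists_codim_one H hb
    obtain ⟨F, F0, Fle, Fr, N, hN⟩ := ih U (by omega)
    obtain ⟨F', hF1, hF2⟩ : ∃ F' : ℕ → LieSubalgebra ℝ 𝔤, (∀ k, k ≤ N → F' k = F k) ∧
        ∀ k, N < k → F' k = H :=
      ⟨fun k => if k ≤ N then F k else H, fun k hk => if_pos hk, fun k hk => if_neg (by omega)⟩
    refine ⟨F', ?_, ?_, ?_, N + 1, ?_⟩
    · rw [hF1 0 (Nat.zero_le _), F0]
    · intro k
      rcases lt_trichotomy k N with h | h | h
      · rw [hF1 k h.le, hF1 (k + 1) h]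
        exact Fle k
      · subst h
        rw [hF1 k le_rfl, hF2 (k + 1) (Nat.lt_succ_self k), hN k le_rfl]
        exact hUH
      · rw [hF2 k h, hF2 (k + 1) (by omega)]
    · intro k
      rcases lt_trichotomy k N with h | h | h
      · rw [hF1 k h.le, hF1 (k + 1) h]
        exact Fr k
      · subst h
        rw [hF1 k le_rfl, hF2 (k + 1) (Nat.lt_succ_self k), hN k le_rfl]
        exact h1
      · rw [hF2 k h, hF2 (k + 1) (by omega)]
        omega
    · intro k hk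
      exact hF2 k (by omega)

/-- every solvable Lie algebra has a complete flag of subalgebras -/
theorem flag_of_solvable [LieAlgebra.IsSolvable 𝔤] : HasCompleteFlag 𝔤 := by
  obtain ⟨F, F0, Fle, Fr, N, hN⟩ :=
    flag_of_solvable_aux (finrank ℝ (⊤ : LieSubalgebra ℝ 𝔤)) (⊤ : LieSubalgebra ℝ 𝔤) le_rfl
  exact ⟨F, F0, Fle, Fr, N, hN N le_rfl⟩

end Pool.Agent.Lib.RScal
end
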